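import Mathlib

set_option autoImplicit false

namespace Pool.Agent.Results.MP_a3c043_al.Yes

open Finset Equiv

section Defs
variable {n : ℕ} (G : Subgroup (Perm (Fin n)))

def StronglySeparating : Prop :=
  ∀ (A B : Finset (Fin n)) (k : ℕ), 1 < A.card → A.card < n → 1 < B.card → B.card < n →
    B.card ∣ n → A.card * B.card = k * n → ∃ g ∈ G, (A ∩ B.image g).card ≠ k

def Spreading : Prop :=
  ∀ (A : Finset (Fin n)) (t : Fin n → Fin n), A.Nonempty → A ≠ univ → ¬Function.Injective t →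
    ∃ g ∈ G, A.card < (univ.filter fun w => t w ∈ A.image g).card

/-- Every invariant subspace of the augmentation submodule is zero or all of it. -/
def QI : Prop :=
  ∀ W : Submodule ℚ (Fin n → ℚ), (∀ f ∈ W, ∑ x, f x = 0) → (∀ g ∈ G, ∀ f ∈ W, f ∘ g ∈ W) →
    W = ⊥ ∨ ∀ f : Fin n → ℚ, ∑ x, f x = 0 → f ∈ W

end Defs

abbrev O := Fin 27

def M : ℕ := 53067618229521769046738071573877416778872586263338265013355549100346230972124408789241793385084288113576990963260684376741750278034318370957010413230707409486494262579936661591203694540791800365035368156551509140701056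

def T : ℕ := 25506231472949298244958606253030716911673509759739504666432800617066762858882110009826509369660960618186767628339606472132675073468298993888761809175959451728139602545875553079236362465552438464314934504183491348456954548047473981870127127500065004308603899613929588197256459018905202634853675976292275737232157740363237243036205823973274422901756171786568767157930723742283314287169205093867261972808230560009571036022800616360452112840095877496139116823002087042132184152310032201278702516200161814985628147922557237800967207890584089240594387258053493504356137851174939710825707457512797716197528703296480010480296018192926054151995865118777958598258917580858439740204894876929030367797381520913567135297838809605468752197729126265718743628511618659460958028427795849907392835325498710391920761578129191630530980776675769768376004274428917783070925059653314458506014719496055907387865087205070579930307203859402789902654713771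20624116586060448246755301631312934292802644499864491150797348205047438359549017330307017062178603990284403425420651583350530202501902013748541808254436459253715562184198416317201286153152418324143633947661383576886000039946914912289154215381495606747339320901200851607934137341376726780146624328653712251608858616407233329089387971713820448648048831093916602989891616449842044134235789560564814247608047226142695423631189419806305395577125849840222789552619980571706383615811809349085537290475801409026119214654172732916572844296224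

/-- Two of the 27 lines on a cubic surface meet. -/
def adj (x y : O) : Bool := M.testBit (27 * x.val + y.val)

/-- The 36 reflections. -/
def R (r : Fin 36) (z : O) : O := Fin.ofNat 27 ((T >>> (5 * (27 * r.val + z.val))) % 32)

def G : Subgroup (Perm O) where
  carrier := {g | ∀ x y, adj (g x) (g y) = adj x y}
  mul_mem' ha hb x y := (ha _ _).trans (hb x y)
  one_mem' _ _ := rfl
  inv_mem' {g} h x y := by rw [← h]; simp

def s (r : Fin 36) : Perm O :=
  Function.Involutive.toPerm (R r) ((by decide +kernel : ∀ r z, R r (R r z) = z) r)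

theorem sG (r : Fin 36) : s r ∈ G :=
  (by decide +kernel : ∀ r x y, adj (R r x) (R r y) = adj x y) r

theorem tr (P : O) : ∃ g ∈ G, g 0 = P := by
  obtain ⟨a, b, h⟩ := (by decide +kernel : ∀ P : O, ∃ a b, R a (R b 0) = P) P
  exact ⟨s a * s b, mul_mem (sG a) (sG b), h⟩

theorem st (y : O) (hy : y ≠ 0) : ∃ g ∈ G, g 0 = 0 ∧ g (if adj 0 y then 7 else 1) = y := by
  obtain ⟨a, b, h⟩ := (by decide +kernel : ∀ y : O, y ≠ 0 → ∃ a b, R a (R b 0) = 0 ∧
    R a (R b (if adj 0 y then 7 else 1)) = y) y hy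
  exact ⟨s a * s b, mul_mem (sG a) (sG b), h⟩

def N {K : Type} [CommRing K] (P : O) (f : O → K) : K := ∑ y, if adj P y then f y else 0

theorem Ng {K : Type} [CommRing K] (g : Perm O) (hg : g ∈ G) (P : O) (f : O → K) :
    N P (fun y => f (g y)) = N (g P) f := by
  unfold N
  rw [← Equiv.sum_comp g fun y => if adj (g P) y then f y else 0]
  exact sum_congr rfl fun y _ => by rw [hg]

def tb : List (List O) := [[7, 8, 9, 10, 11, 12, 13, 14, 15, 16],
  [6, 8, 9, 10, 11, 12, 17, 18, 19, 20],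
  [6, 7, 9, 10, 11, 13, 17, 21, 22, 23],
  [6, 7, 8, 10, 11, 14, 18, 21, 24, 25],
  [6, 7, 8, 9, 11, 15, 19, 22, 24, 26],
  [6, 7, 8, 9, 10, 16, 20, 23, 25, 26],
  [1, 2, 3, 4, 5, 12, 13, 14, 15, 16],
  [0, 2, 3, 4, 5, 12, 17, 18, 19, 20],
  [0, 1, 3, 4, 5, 13, 17, 21, 22, 23],
  [0, 1, 2, 4, 5, 14, 18, 21, 24, 25],
  [0, 1, 2, 3, 5, 15, 19, 22, 24, 26],
  [0, 1, 2, 3, 4, 16, 20, 23, 25, 26],
  [0, 1, 6, 7, 21, 22, 23, 24, 25, 26],
  [0, 2, 6, 8, 18, 19, 20, 24, 25, 26],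
  [0, 3, 6, 9, 17, 19, 20, 22, 23, 26],
  [0, 4, 6, 10, 17, 18, 20, 21, 23, 25],
  [0, 5, 6, 11, 17, 18, 19, 21, 22, 24],
  [1, 2, 7, 8, 14, 15, 16, 24, 25, 26],
  [1, 3, 7, 9, 13, 15, 16, 22, 23, 26],
  [1, 4, 7, 10, 13, 14, 16, 21, 23, 25],
  [1, 5, 7, 11, 13, 14, 15, 21, 22, 24],
  [2, 3, 8, 9, 12, 15, 16, 19, 20, 26],
  [2, 4, 8, 10, 12, 14, 16, 18, 20, 25],
  [2, 5, 8, 11, 12, 14, 15, 18, 19, 24],
  [3, 4, 9, 10, 12, 13, 16, 17, 20, 23],
  [3, 5, 9, 11, 12, 13, 15, 17, 19, 22],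
  [4, 5, 10, 11, 12, 13, 14, 17, 18, 21]]

theorem Nl {K : Type} [CommRing K] (P : O) (f : O → K) :
    N P f = ((tb.getD P.val []).map f).sum := by
  obtain ⟨h1, h2⟩ := (by decide +kernel : ∀ P : O, (univ.filter fun y => adj P y) =
    (tb.getD P.val []).toFinset ∧ (tb.getD P.val []).Nodup) P
  rw [N, ← sum_filter, h1, List.sum_toFinset _ h2]

theorem Nx {K : Type} [CommRing K] (f : O → K) : N 0 f = f 7 + (f 8 + (f 9 + (f 10 + (f 11 + (f 12 + (f 13 + (f 14 + (f 15 + (f 16 + 0))))))))) ∧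
    N 1 f = f 6 + (f 8 + (f 9 + (f 10 + (f 11 + (f 12 + (f 17 + (f 18 + (f 19 + (f 20 + 0))))))))) ∧
    N 2 f = f 6 + (f 7 + (f 9 + (f 10 + (f 11 + (f 13 + (f 17 + (f 21 + (f 22 + (f 23 + 0))))))))) ∧
    N 3 f = f 6 + (f 7 + (f 8 + (f 10 + (f 11 + (f 14 + (f 18 + (f 21 + (f 24 + (f 25 + 0))))))))) ∧
    N 4 f = f 6 + (f 7 + (f 8 + (f 9 + (f 11 + (f 15 + (f 19 + (f 22 + (f 24 + (f 26 + 0))))))))) ∧
    N 5 f = f 6 + (f 7 + (f 8 + (f 9 + (f 10 + (f 16 + (f 20 + (f 23 + (f 25 + (f 26 + 0))))))))) ∧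
    N 6 f = f 1 + (f 2 + (f 3 + (f 4 + (f 5 + (f 12 + (f 13 + (f 14 + (f 15 + (f 16 + 0))))))))) ∧
    N 7 f = f 0 + (f 2 + (f 3 + (f 4 + (f 5 + (f 12 + (f 17 + (f 18 + (f 19 + (f 20 + 0))))))))) ∧
    N 8 f = f 0 + (f 1 + (f 3 + (f 4 + (f 5 + (f 13 + (f 17 + (f 21 + (f 22 + (f 23 + 0))))))))) ∧
    N 9 f = f 0 + (f 1 + (f 2 + (f 4 + (f 5 + (f 14 + (f 18 + (f 21 + (f 24 + (f 25 + 0))))))))) ∧
    N 10 f = f 0 + (f 1 + (f 2 + (f 3 + (f 5 + (f 15 + (f 19 + (f 22 + (f 24 + (f 26 + 0))))))))) ∧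
    N 11 f = f 0 + (f 1 + (f 2 + (f 3 + (f 4 + (f 16 + (f 20 + (f 23 + (f 25 + (f 26 + 0))))))))) ∧
    N 12 f = f 0 + (f 1 + (f 6 + (f 7 + (f 21 + (f 22 + (f 23 + (f 24 + (f 25 + (f 26 + 0))))))))) ∧
    N 13 f = f 0 + (f 2 + (f 6 + (f 8 + (f 18 + (f 19 + (f 20 + (f 24 + (f 25 + (f 26 + 0))))))))) ∧
    N 14 f = f 0 + (f 3 + (f 6 + (f 9 + (f 17 + (f 19 + (f 20 + (f 22 + (f 23 + (f 26 + 0))))))))) ∧
    N 15 f = f 0 + (f 4 + (f 6 + (f 10 + (f 17 + (f 18 + (f 20 + (f 21 + (f 23 + (f 25 + 0))))))))) ∧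
    N 16 f = f 0 + (f 5 + (f 6 + (f 11 + (f 17 + (f 18 + (f 19 + (f 21 + (f 22 + (f 24 + 0))))))))) ∧
    N 17 f = f 1 + (f 2 + (f 7 + (f 8 + (f 14 + (f 15 + (f 16 + (f 24 + (f 25 + (f 26 + 0))))))))) ∧
    N 18 f = f 1 + (f 3 + (f 7 + (f 9 + (f 13 + (f 15 + (f 16 + (f 22 + (f 23 + (f 26 + 0))))))))) ∧
    N 19 f = f 1 + (f 4 + (f 7 + (f 10 + (f 13 + (f 14 + (f 16 + (f 21 + (f 23 + (f 25 + 0))))))))) ∧
    N 20 f = f 1 + (f 5 + (f 7 + (f 11 + (f 13 + (f 14 + (f 15 + (f 21 + (f 22 + (f 24 + 0))))))))) ∧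
    N 21 f = f 2 + (f 3 + (f 8 + (f 9 + (f 12 + (f 15 + (f 16 + (f 19 + (f 20 + (f 26 + 0))))))))) ∧
    N 22 f = f 2 + (f 4 + (f 8 + (f 10 + (f 12 + (f 14 + (f 16 + (f 18 + (f 20 + (f 25 + 0))))))))) ∧
    N 23 f = f 2 + (f 5 + (f 8 + (f 11 + (f 12 + (f 14 + (f 15 + (f 18 + (f 19 + (f 24 + 0))))))))) ∧
    N 24 f = f 3 + (f 4 + (f 9 + (f 10 + (f 12 + (f 13 + (f 16 + (f 17 + (f 20 + (f 23 + 0))))))))) ∧
    N 25 f = f 3 + (f 5 + (f 9 + (f 11 + (f 12 + (f 13 + (f 15 + (f 17 + (f 19 + (f 22 + 0))))))))) ∧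
    N 26 f = f 4 + (f 5 + (f 10 + (f 11 + (f 12 + (f 13 + (f 14 + (f 17 + (f 18 + (f 21 + 0))))))))) :=
  ⟨(Nl 0 f).trans rfl, (Nl 1 f).trans rfl, (Nl 2 f).trans rfl, (Nl 3 f).trans rfl, (Nl 4 f).trans rfl, (Nl 5 f).trans rfl, (Nl 6 f).trans rfl, (Nl 7 f).trans rfl, (Nl 8 f).trans rfl, (Nl 9 f).trans rfl, (Nl 10 f).trans rfl, (Nl 11 f).trans rfl, (Nl 12 f).trans rfl, (Nl 13 f).trans rfl, (Nl 14 f).trans rfl, (Nl 15 f).trans rfl, (Nl 16 f).trans rfl, (Nl 17 f).trans rfl, (Nl 18 f).trans rfl, (Nl 19 f).trans rfl, (Nl 20 f).trans rfl, (Nl 21 f).trans rfl, (Nl 22 f).trans rfl, (Nl 23 f).trans rfl, (Nl 24 f).trans rfl, (Nl 25 f).trans rfl, (Nl 26 f).trans rfl⟩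

theorem core0 (a b : O → ℤ) (k : ℤ) (h : ∀ g ∈ G, ∑ x, a x * b (g x) = k) :
    80 * a 0 * b 0 + 8 * N 0 a * N 0 b +
      5 * (∑ x, a x - a 0 - N 0 a) * (∑ x, b x - b 0 - N 0 b) = 80 * k := by
  classical
  obtain ⟨H, hH⟩ : ∃ H : Finset (Perm O), ∀ g, g ∈ H ↔ g ∈ G ∧ g 0 = 0 :=
    ⟨univ.filter fun g => g ∈ G ∧ g 0 = 0, fun g => by simp⟩
  obtain ⟨f, hf⟩ : ∃ f : O → ℤ, ∀ y, f y = ∑ g ∈ H, b (g y) := ⟨_, fun _ => rfl⟩
  have inv : ∀ g ∈ G, g 0 = 0 → ∀ y, f (g y) = f y := fun g hg h0 y => by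
    rw [hf, hf]
    refine sum_equiv (Equiv.mulRight g) (fun u => ?_) fun u _ => rfl
    simp only [hH, Equiv.coe_mulRight, Perm.mul_apply, h0, G.mul_mem_cancel_right hg]
  have val : ∀ y, y ≠ 0 → f y = if adj 0 y then f 7 else f 1 := fun y hy => by
    obtain ⟨g, hg, h0, e⟩ := st y hy
    rw [← e, inv g hg h0, e]
    split_ifs <;> rfl
  have dec : ∀ c : O → ℤ, ∑ y, c y * f y =
      c 0 * (f 0 - f 1) + (f 7 - f 1) * N 0 c + f 1 * ∑ y, c y := fun c => by
    have : ∀ y, c y * f y = (if y = 0 then c 0 * (f 0 - f 1) else 0) +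
        (f 7 - f 1) * (if adj 0 y then c y else 0) + f 1 * c y := fun y => by
      by_cases hy : y = 0
      · subst hy
        rw [if_pos rfl, if_neg (by decide +kernel)]; ring
      · rw [val y hy, if_neg hy]; split_ifs <;> ring
    rw [sum_congr rfl fun y _ => this y, sum_add_distrib, sum_add_distrib, ← mul_sum, ← mul_sum,
      sum_ite_eq' univ (0 : O), if_pos (mem_univ _)]
    rfl
  have sm : ∀ (c : O → ℤ) (v : ℤ), (∀ g ∈ H, ∑ x, c x * b (g x) = v) →
      ∑ y, c y * f y = H.card * v := fun c v hv => by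
    simp only [hf, mul_sum]
    rw [sum_comm, sum_congr rfl hv, sum_const, nsmul_eq_mul]
  have e1 := sm a k fun g hg => h g ((hH g).1 hg).1
  have e2 := sm (fun _ => 1) (∑ x, b x) fun g _ => by
    simp only [one_mul]; exact Equiv.sum_comp g b
  have e3 := sm (fun y => if adj 0 y then 1 else 0) (N 0 b) fun g hg => by
    have := Ng g ((hH g).1 hg).1 0 b
    rw [((hH g).1 hg).2] at this
    rw [← this, N]
    exact sum_congr rfl fun y _ => by split_ifs <;> simp
  have e4 : f 0 = H.card * b 0 := by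
    rw [hf, sum_congr rfl fun g hg => congrArg b ((hH g).1 hg).2, sum_const, nsmul_eq_mul]
  rw [dec] at e1 e2 e3
  have n1 : N 0 (fun _ => (1 : ℤ)) = 10 := by decide +kernel
  have n2 : N 0 (fun y => if adj 0 y then (1 : ℤ) else 0) = 10 := by decide +kernel
  have n3 : ∑ y : O, (if adj 0 y then (1 : ℤ) else 0) = 10 := by decide +kernel
  have n4 : ∑ _y : O, (1 : ℤ) = 27 := by simp
  have n5 : (if adj 0 0 then (1 : ℤ) else 0) = 0 := by decide +kernel
  rw [n1, n4] at e2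
  rw [n2, n3, n5] at e3
  have hc : (H.card : ℤ) ≠ 0 := by
    have : 0 < H.card := card_pos.2 ⟨1, (hH 1).2 ⟨one_mem _, rfl⟩⟩
    omega
  refine mul_left_cancel₀ hc ?_
  linear_combination 80 * e1 - 80 * a 0 * e4 - 8 * N 0 a * e3 -
    5 * (∑ x, a x - a 0 - N 0 a) * (e2 - e3 - e4)

theorem core (a b : O → ℤ) (k : ℤ) (h : ∀ g ∈ G, ∑ x, a x * b (g x) = k) (P Q : O) :
    80 * a P * b Q + 8 * N P a * N Q b +
      5 * (∑ x, a x - a P - N P a) * (∑ x, b x - b Q - N Q b) = 80 * k := by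
  obtain ⟨u, hu, rfl⟩ := tr P
  obtain ⟨v, hv, rfl⟩ := tr Q
  have := core0 (fun x => a (u x)) (fun x => b (v x)) k fun g hg => by
    rw [← h (v * g * u⁻¹) (mul_mem (mul_mem hv hg) (inv_mem hu)),
      ← Equiv.sum_comp u fun x => a x * b ((v * g * u⁻¹) x)]
    simp
  rwa [Ng u hu, Ng v hv, Equiv.sum_comp u a, Equiv.sum_comp v b] at this

theorem small (a0 a1 a2 a3 a4 a5 b m : ℤ) (k0 : a0 = 0 ∨ a0 = 1) (k1 : a1 = 0 ∨ a1 = 1)
    (k2 : a2 = 0 ∨ a2 = 1) (k3 : a3 = 0 ∨ a3 = 1) (k4 : a4 = 0 ∨ a4 = 1) (k5 : a5 = 0 ∨ a5 = 1)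
    (k6 : b = 0 ∨ b = 1)
    (c01 : 0 ≤ m - a0 - (a1 - a0 + b) ∧ m - a0 - (a1 - a0 + b) ≤ 1)
    (c02 : 0 ≤ m - a0 - (a2 - a0 + b) ∧ m - a0 - (a2 - a0 + b) ≤ 1)
    (c03 : 0 ≤ m - a0 - (a3 - a0 + b) ∧ m - a0 - (a3 - a0 + b) ≤ 1)
    (c04 : 0 ≤ m - a0 - (a4 - a0 + b) ∧ m - a0 - (a4 - a0 + b) ≤ 1)
    (c05 : 0 ≤ m - a0 - (a5 - a0 + b) ∧ m - a0 - (a5 - a0 + b) ≤ 1)
    (c12 : 0 ≤ m - a1 - (a2 - a0 + b) ∧ m - a1 - (a2 - a0 + b) ≤ 1)
    (c13 : 0 ≤ m - a1 - (a3 - a0 + b) ∧ m - a1 - (a3 - a0 + b) ≤ 1)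
    (c14 : 0 ≤ m - a1 - (a4 - a0 + b) ∧ m - a1 - (a4 - a0 + b) ≤ 1)
    (c15 : 0 ≤ m - a1 - (a5 - a0 + b) ∧ m - a1 - (a5 - a0 + b) ≤ 1)
    (c23 : 0 ≤ m - a2 - (a3 - a0 + b) ∧ m - a2 - (a3 - a0 + b) ≤ 1)
    (c24 : 0 ≤ m - a2 - (a4 - a0 + b) ∧ m - a2 - (a4 - a0 + b) ≤ 1)
    (c25 : 0 ≤ m - a2 - (a5 - a0 + b) ∧ m - a2 - (a5 - a0 + b) ≤ 1)
    (c34 : 0 ≤ m - a3 - (a4 - a0 + b) ∧ m - a3 - (a4 - a0 + b) ≤ 1)
    (c35 : 0 ≤ m - a3 - (a5 - a0 + b) ∧ m - a3 - (a5 - a0 + b) ≤ 1)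
    (c45 : 0 ≤ m - a4 - (a5 - a0 + b) ∧ m - a4 - (a5 - a0 + b) ≤ 1)
    (d1 : 0 ≤ a1 - a0 + b ∧ a1 - a0 + b ≤ 1)
    (d2 : 0 ≤ a2 - a0 + b ∧ a2 - a0 + b ≤ 1)
    (d3 : 0 ≤ a3 - a0 + b ∧ a3 - a0 + b ≤ 1)
    (d4 : 0 ≤ a4 - a0 + b ∧ a4 - a0 + b ≤ 1)
    (d5 : 0 ≤ a5 - a0 + b ∧ a5 - a0 + b ≤ 1)
    (e : 2 * m = a0 + a1 + a2 + a3 + a4 + a5 - 3 * (a0 - b)) :
    a1 = a0 ∧ a2 = a0 ∧ a3 = a0 ∧ a4 = a0 ∧ a5 = a0 ∧ b = a0 ∧ m = 3 * a0 := by
  rcases k0 with rfl | rfl <;> rcases k1 with rfl | rfl <;> rcases k2 with rfl | rfl <;>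
    rcases k3 with rfl | rfl <;> rcases k4 with rfl | rfl <;> rcases k5 with rfl | rfl <;>
    rcases k6 with rfl | rfl <;> omega

theorem flat (f : O → ℤ) (hb : ∀ x, f x = 0 ∨ f x = 1) (c t : ℤ) (ht : 1 - t ≠ 0)
    (h : ∀ x, N x f = c + t * f x) (x : O) : f x = f 0 := by
  have bd : ∀ x (v : ℤ), f x = v → 0 ≤ v ∧ v ≤ 1 := fun x v e => by have := hb x; omega
  obtain ⟨e0, e1, e2, e3, e4, e5, e6, e7, e8, e9, e10, e11, e12, e13, e14, e15, e16, e17, e18, e19, e20, e21, e22, e23, e24, e25, e26⟩ := Nx f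
  rw [h 0] at e0
  rw [h 1] at e1
  rw [h 2] at e2
  rw [h 3] at e3
  rw [h 4] at e4
  rw [h 5] at e5
  rw [h 6] at e6
  rw [h 7] at e7
  rw [h 8] at e8
  rw [h 9] at e9
  rw [h 10] at e10
  rw [h 11] at e11
  rw [h 12] at e12
  rw [h 13] at e13
  rw [h 14] at e14
  rw [h 15] at e15
  rw [h 16] at e16
  rw [h 17] at e17
  rw [h 18] at e18
  rw [h 19] at e19
  rw [h 20] at e20
  rw [h 21] at e21
  rw [h 22] at e22
  rw [h 23] at e23
  rw [h 24] at e24
  rw [h 25] at e25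
  rw [h 26] at e26
  obtain ⟨m, hm⟩ : ∃ m, m = f 0 + f 7 + f 12 := ⟨_, rfl⟩
  have l01 : f 0 + f 7 + f 12 = m := hm.symm
  have l02 : f 0 + f 8 + f 13 = m := mul_left_cancel₀ ht (by
    rw [hm]; linear_combination e0 + e7 + e12 - e0 - e8 - e13)
  have l03 : f 0 + f 9 + f 14 = m := mul_left_cancel₀ ht (by
    rw [hm]; linear_combination e0 + e7 + e12 - e0 - e9 - e14)
  have l04 : f 0 + f 10 + f 15 = m := mul_left_cancel₀ ht (by
    rw [hm]; linear_combination e0 + e7 + e12 - e0 - e10 - e15)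
  have l05 : f 0 + f 11 + f 16 = m := mul_left_cancel₀ ht (by
    rw [hm]; linear_combination e0 + e7 + e12 - e0 - e11 - e16)
  have l12 : f 1 + f 8 + f 17 = m := mul_left_cancel₀ ht (by
    rw [hm]; linear_combination e0 + e7 + e12 - e1 - e8 - e17)
  have l13 : f 1 + f 9 + f 18 = m := mul_left_cancel₀ ht (by
    rw [hm]; linear_combination e0 + e7 + e12 - e1 - e9 - e18)
  have l14 : f 1 + f 10 + f 19 = m := mul_left_cancel₀ ht (by
    rw [hm]; linear_combination e0 + e7 + e12 - e1 - e10 - e19)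
  have l15 : f 1 + f 11 + f 20 = m := mul_left_cancel₀ ht (by
    rw [hm]; linear_combination e0 + e7 + e12 - e1 - e11 - e20)
  have l23 : f 2 + f 9 + f 21 = m := mul_left_cancel₀ ht (by
    rw [hm]; linear_combination e0 + e7 + e12 - e2 - e9 - e21)
  have l24 : f 2 + f 10 + f 22 = m := mul_left_cancel₀ ht (by
    rw [hm]; linear_combination e0 + e7 + e12 - e2 - e10 - e22)
  have l25 : f 2 + f 11 + f 23 = m := mul_left_cancel₀ ht (by
    rw [hm]; linear_combination e0 + e7 + e12 - e2 - e11 - e23)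
  have l34 : f 3 + f 10 + f 24 = m := mul_left_cancel₀ ht (by
    rw [hm]; linear_combination e0 + e7 + e12 - e3 - e10 - e24)
  have l35 : f 3 + f 11 + f 25 = m := mul_left_cancel₀ ht (by
    rw [hm]; linear_combination e0 + e7 + e12 - e3 - e11 - e25)
  have l45 : f 4 + f 11 + f 26 = m := mul_left_cancel₀ ht (by
    rw [hm]; linear_combination e0 + e7 + e12 - e4 - e11 - e26)
  have l10 : f 1 + f 6 + f 12 = m := mul_left_cancel₀ ht (by
    rw [hm]; linear_combination e0 + e7 + e12 - e1 - e6 - e12)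
  have l20 : f 2 + f 6 + f 13 = m := mul_left_cancel₀ ht (by
    rw [hm]; linear_combination e0 + e7 + e12 - e2 - e6 - e13)
  have l30 : f 3 + f 6 + f 14 = m := mul_left_cancel₀ ht (by
    rw [hm]; linear_combination e0 + e7 + e12 - e3 - e6 - e14)
  have l40 : f 4 + f 6 + f 15 = m := mul_left_cancel₀ ht (by
    rw [hm]; linear_combination e0 + e7 + e12 - e4 - e6 - e15)
  have l50 : f 5 + f 6 + f 16 = m := mul_left_cancel₀ ht (by
    rw [hm]; linear_combination e0 + e7 + e12 - e5 - e6 - e16)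
  have lp : f 12 + f 21 + f 26 = m := mul_left_cancel₀ ht (by
    rw [hm]; linear_combination e0 + e7 + e12 - e12 - e21 - e26)
  have b1 : f 7 = f 1 - f 0 + f 6 := by linear_combination l01 - l10
  have b2 : f 8 = f 2 - f 0 + f 6 := by linear_combination l02 - l20
  have b3 : f 9 = f 3 - f 0 + f 6 := by linear_combination l03 - l30
  have b4 : f 10 = f 4 - f 0 + f 6 := by linear_combination l04 - l40
  have b5 : f 11 = f 5 - f 0 + f 6 := by linear_combination l05 - l50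
  have c01 : f 12 = m - f 0 - (f 1 - f 0 + f 6) := by linear_combination l01 - b1
  have c02 : f 13 = m - f 0 - (f 2 - f 0 + f 6) := by linear_combination l02 - b2
  have c03 : f 14 = m - f 0 - (f 3 - f 0 + f 6) := by linear_combination l03 - b3
  have c04 : f 15 = m - f 0 - (f 4 - f 0 + f 6) := by linear_combination l04 - b4
  have c05 : f 16 = m - f 0 - (f 5 - f 0 + f 6) := by linear_combination l05 - b5
  have c12 : f 17 = m - f 1 - (f 2 - f 0 + f 6) := by linear_combination l12 - b2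
  have c13 : f 18 = m - f 1 - (f 3 - f 0 + f 6) := by linear_combination l13 - b3
  have c14 : f 19 = m - f 1 - (f 4 - f 0 + f 6) := by linear_combination l14 - b4
  have c15 : f 20 = m - f 1 - (f 5 - f 0 + f 6) := by linear_combination l15 - b5
  have c23 : f 21 = m - f 2 - (f 3 - f 0 + f 6) := by linear_combination l23 - b3
  have c24 : f 22 = m - f 2 - (f 4 - f 0 + f 6) := by linear_combination l24 - b4
  have c25 : f 23 = m - f 2 - (f 5 - f 0 + f 6) := by linear_combination l25 - b5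
  have c34 : f 24 = m - f 3 - (f 4 - f 0 + f 6) := by linear_combination l34 - b4
  have c35 : f 25 = m - f 3 - (f 5 - f 0 + f 6) := by linear_combination l35 - b5
  have c45 : f 26 = m - f 4 - (f 5 - f 0 + f 6) := by linear_combination l45 - b5
  obtain ⟨k1, k2, k3, k4, k5, k6, km⟩ := small (f 0) (f 1) (f 2) (f 3) (f 4) (f 5) (f 6) m
    (hb 0) (hb 1) (hb 2) (hb 3) (hb 4) (hb 5) (hb 6)
    (bd _ _ c01) (bd _ _ c02) (bd _ _ c03) (bd _ _ c04) (bd _ _ c05) (bd _ _ c12) (bd _ _ c13) (bd _ _ c14) (bd _ _ c15) (bd _ _ c23) (bd _ _ c24) (bd _ _ c25) (bd _ _ c34) (bd _ _ c35) (bd _ _ c45)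
    (bd _ _ b1) (bd _ _ b2) (bd _ _ b3) (bd _ _ b4) (bd _ _ b5)
    (by linear_combination lp - c01 - c23 - c45)
  have k7 : f 7 = f 0 := by linear_combination b1 + k1 + k6
  have k8 : f 8 = f 0 := by linear_combination b2 + k2 + k6
  have k9 : f 9 = f 0 := by linear_combination b3 + k3 + k6
  have k10 : f 10 = f 0 := by linear_combination b4 + k4 + k6
  have k11 : f 11 = f 0 := by linear_combination b5 + k5 + k6
  have k12 : f 12 = f 0 := by linear_combination c01 + km - k1 - k6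
  have k13 : f 13 = f 0 := by linear_combination c02 + km - k2 - k6
  have k14 : f 14 = f 0 := by linear_combination c03 + km - k3 - k6
  have k15 : f 15 = f 0 := by linear_combination c04 + km - k4 - k6
  have k16 : f 16 = f 0 := by linear_combination c05 + km - k5 - k6
  have k17 : f 17 = f 0 := by linear_combination c12 + km - k1 - k2 - k6
  have k18 : f 18 = f 0 := by linear_combination c13 + km - k1 - k3 - k6
  have k19 : f 19 = f 0 := by linear_combination c14 + km - k1 - k4 - k6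
  have k20 : f 20 = f 0 := by linear_combination c15 + km - k1 - k5 - k6
  have k21 : f 21 = f 0 := by linear_combination c23 + km - k2 - k3 - k6
  have k22 : f 22 = f 0 := by linear_combination c24 + km - k2 - k4 - k6
  have k23 : f 23 = f 0 := by linear_combination c25 + km - k2 - k5 - k6
  have k24 : f 24 = f 0 := by linear_combination c34 + km - k3 - k4 - k6
  have k25 : f 25 = f 0 := by linear_combination c35 + km - k3 - k5 - k6
  have k26 : f 26 = f 0 := by linear_combination c45 + km - k4 - k5 - k6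
  fin_cases x
  exacts [rfl, k1, k2, k3, k4, k5, k6, k7, k8, k9, k10, k11, k12, k13, k14, k15, k16, k17, k18, k19, k20, k21, k22, k23, k24, k25, k26]

theorem noInt (f : O → ℤ) (hb : ∀ x, f x = 0 ∨ f x = 1) (p q : O) (hp : f p = 1) (hq : f q = 0)
    (t : ℤ) (ht : t = -5 ∨ t = 10) (h : ∀ p q, f p = 1 → f q = 0 → N p f - N q f = t) : False := by
  have := flat f hb (N q f) t (by omega) fun x => by
    rcases hb x with e | e
    · have := h p x hp e
      have := h p q hp hq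
      rw [e]; omega
    · have := h x q e hq
      rw [e]; omega
  have h1 := this p
  have h2 := this q
  omega

theorem Nb (f : O → ℤ) (hb : ∀ x, f x = 0 ∨ f x = 1) (p : O) : 0 ≤ N p f ∧ N p f ≤ 10 := by
  have : N p (fun _ => (1 : ℤ)) = 10 := (by decide +kernel : ∀ p, N p (fun _ => (1 : ℤ)) = 10) p
  refine ⟨sum_nonneg fun y _ => ?_, this ▸ sum_le_sum fun y _ => ?_⟩ <;> have := hb y <;>
    split_ifs <;> beta_reduce <;> omega

theorem main (a b : O → ℤ) (ha : ∀ x, a x = 0 ∨ a x = 1) (hb : ∀ x, b x = 0 ∨ b x = 1)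
    (p q u v : O) (hp : a p = 1) (hq : a q = 0) (hu : b u = 1) (hv : b v = 0) (k : ℤ)
    (h : ∀ g ∈ G, ∑ x, a x * b (g x) = k) : False := by
  have key : ∀ p q u v, a p = 1 → a q = 0 → b u = 1 → b v = 0 →
      85 + 5 * ((N p a - N q a) + (N u b - N v b)) + 13 * ((N p a - N q a) * (N u b - N v b)) = 0 :=
    fun p q u v hp hq hu hv => by
      have e1 := core a b k h p u
      have e2 := core a b k h p v
      have e3 := core a b k h q u
      have e4 := core a b k h q v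
      rw [hp] at e1 e2
      rw [hq] at e3 e4
      rw [hu] at e1 e3
      rw [hv] at e2 e4
      linear_combination e1 - e2 - e3 + e4
  have h0 := key p q u v hp hq hu hv
  have := Nb a ha p
  have := Nb a ha q
  have := Nb b hb u
  have := Nb b hb v
  obtain ⟨s, hs⟩ : ∃ s, s = N p a - N q a := ⟨_, rfl⟩
  obtain ⟨t, ht⟩ : ∃ t, t = N u b - N v b := ⟨_, rfl⟩
  rw [← hs, ← ht] at h0
  have s1 : -10 ≤ s := by omega
  have s2 : s ≤ 10 := by omega
  have c : (s = 1 ∨ s = -1) ∨ (t = 1 ∨ t = -1) := by interval_cases s <;> omega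
  rcases c with c | c
  · refine noInt b hb u v hu hv t (by rcases c with rfl | rfl <;> omega) fun u' v' hu' hv' => ?_
    have := key p q u' v' hp hq hu' hv'
    rw [← hs] at this
    rcases c with rfl | rfl <;> omega
  · refine noInt a ha p q hp hq s (by rcases c with rfl | rfl <;> omega) fun p' q' hp' hq' => ?_
    have := key p' q' u v hp' hq' hu hv
    rw [← ht] at this
    rcases c with rfl | rfl <;> omega

def t (w : O) : O := if 6 ≤ w.val ∧ w.val < 12 then w - 6 else w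

def W : Submodule ℚ (O → ℚ) where
  carrier := {f | ∑ x, f x = 0 ∧ ∀ P, N P f = -5 * f P}
  add_mem' {f g} hf hg := ⟨by simp only [Pi.add_apply, sum_add_distrib, hf.1, hg.1, add_zero],
    fun P => by
      rw [Pi.add_apply, mul_add, ← hf.2, ← hg.2, N, N, N, ← sum_add_distrib]
      exact sum_congr rfl fun y _ => by split_ifs <;> simp⟩
  zero_mem' := ⟨by simp, fun P => by simp [N]⟩
  smul_mem' c f hf := ⟨by simp only [Pi.smul_apply, smul_eq_mul, ← mul_sum, hf.1, mul_zero],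
    fun P => by
      rw [Pi.smul_apply, smul_eq_mul, mul_left_comm, ← hf.2, N, N, mul_sum]
      exact sum_congr rfl fun y _ => by split_ifs <;> simp⟩

theorem result : ∃ (n : ℕ) (G : Subgroup (Perm (Fin n))), 2 ≤ n ∧ (∀ x y, ∃ g ∈ G, g x = y) ∧
    StronglySeparating G ∧ ¬Spreading G ∧ ¬QI G := by
  refine ⟨27, G, by norm_num, fun x y => ?_, fun A B k a1 a2 b1 b2 _ _ => ?_, fun h => ?_, fun h => ?_⟩
  · obtain ⟨u, hu, rfl⟩ := tr x
    obtain ⟨v, hv, rfl⟩ := tr y
    exact ⟨v * u⁻¹, mul_mem hv (inv_mem hu), by simp⟩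
  · by_contra hn
    push Not at hn
    obtain ⟨p, hp⟩ := card_pos.1 (by omega : 0 < A.card)
    obtain ⟨u, hu⟩ := card_pos.1 (by omega : 0 < B.card)
    obtain ⟨q, -, hq⟩ := exists_mem_notMem_of_card_lt_card (by simpa using a2 : A.card < (univ : Finset O).card)
    obtain ⟨v, -, hv⟩ := exists_mem_notMem_of_card_lt_card (by simpa using b2 : B.card < (univ : Finset O).card)
    refine main (fun x => if x ∈ A then 1 else 0) (fun x => if x ∈ B then 1 else 0)
      (fun x => by split_ifs <;> simp) (fun x => by split_ifs <;> simp) p q u v (if_pos hp)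
      (if_neg hq) (if_pos hu) (if_neg hv) k fun g hg => ?_
    rw [← hn g⁻¹ (inv_mem hg)]
    have : A ∩ B.image ⇑g⁻¹ = univ.filter fun x => x ∈ A ∧ g x ∈ B := by
      ext x
      simp only [mem_inter, mem_image, mem_filter, mem_univ, true_and]
      exact and_congr_right fun _ => ⟨fun ⟨y, hy, e⟩ => by simpa [← e] using hy,
        fun hx => ⟨g x, hx, by simp⟩⟩
    rw [this, ← sum_boole]
    exact sum_congr rfl fun x _ => by by_cases h1 : x ∈ A <;> by_cases h2 : g x ∈ B <;> simp [h1, h2]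
  · obtain ⟨g, hg, hc⟩ := h {0, 7, 12} t (by simp) (by decide +kernel)
      fun hi => absurd (hi (by decide +kernel : t 6 = t 0)) (by decide)
    have := (by decide +kernel : ∀ x y z : O, adj x y → adj x z → adj y z →
      (univ.filter fun w => t w = x ∨ t w = y ∨ t w = z).card ≤ 3) (g 0) (g 7) (g 12)
      ((hg 0 7).trans (by decide +kernel)) ((hg 0 12).trans (by decide +kernel))
      ((hg 7 12).trans (by decide +kernel))
    have e : ({0, 7, 12} : Finset O).card = 3 := by decide +kernel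
    simp only [image_insert, image_singleton, mem_insert, mem_singleton, e] at hc
    exact absurd hc (not_lt.2 (by convert this))
  · rcases h W (fun f hf => hf.1) (fun g hg f hf => ⟨(Equiv.sum_comp g f).trans hf.1,
      fun P => (Ng g hg P f).trans (hf.2 _)⟩) with e | e
    · have : (fun x : O => if x.val < 6 then 1 else if x.val < 12 then -1 else 0 : O → ℚ) ∈ W :=
        ⟨by decide +kernel, by decide +kernel⟩
      rw [e, Submodule.mem_bot] at this
      exact absurd (congrFun this 0) (by decide +kernel)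
    · exact absurd ((e (fun x => if x.val = 0 then 1 else if x.val = 1 then -1 else 0)
        (by decide +kernel)).2 0) (by decide +kernel)

end Pool.Agent.Results.MP_a3c043_al.Yes
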